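import Pool.Agent.Helper10_NPX.UAC

/-!
The row UAC of the squad NPX (MP_005a41_gt) is in `Pool/Agent/Helper10_NPX/UAC.lean`.
-/
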